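import Pool.Agent.Work.MP_5c86b6_an.Lac.Main

/-!
Joint range of the first two Haar weights: definitions, small linearization coefficients,
extension of finite blocks.
-/

open Polynomial Finset Filter Topology

namespace Pool.Agent.Work.MP_5c86b6_an.Jt

open Pool.Agent.Work.MP_5c86b6_an.Lac

/-- The sequences `a`, `b`, `c` define a polynomial hypergroup on the nonnegative integers. -/
def IsHyp (a b c : ℕ → ℝ) : Prop :=
  (∀ n, 0 < a n) ∧ (∀ n, 0 ≤ b n) ∧ (∀ n, 1 ≤ n → 0 < c n) ∧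
    a 0 + b 0 = 1 ∧ (∀ n, 1 ≤ n → a n + b n + c n = 1) ∧
    ∃ P : ℕ → ℝ[X], P 0 = 1 ∧ P 1 = C (1 / a 0) * (X - C (b 0)) ∧
      (∀ n, 1 ≤ n → X * P n = C (a n) * P (n + 1) + C (b n) * P n + C (c n) * P (n - 1)) ∧
      ∀ m n, ∃ g : ℕ → ℝ, (∀ k, 0 ≤ g k) ∧
        P m * P n = ∑ k ∈ Finset.Icc (Nat.dist m n) (m + n), C (g k) * P k

variable (l : ℕ → ℝ)

lemma E_top (a b : ℕ) : E l a b (a + b) = 1 := by rw [E, top_mp_mul]

lemma E_zero (b c : ℕ) : E l 0 b c = if c = b then 1 else 0 := by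
  rw [E, mp_zero, one_mul, co_mp, Pi.single_apply]

lemma E_step (a b c : ℕ) : E l (a + 2) b (c + 1) =
    E l (a + 1) b c + l (c + 2) * E l (a + 1) b (c + 2) - l (a + 1) * E l a b (c + 1) := by
  rw [E, mp_add_two, sub_mul, mul_assoc, mul_assoc, map_sub, co_X_mul, co_C_mul]
  simp only [Pi.sub_apply, Pi.smul_apply, smul_eq_mul, J_succ, E]

lemma E_one (b c : ℕ) : E l 1 (b + 1) c =
    (if c = b + 2 then 1 else 0) + l (b + 1) * if c = b then 1 else 0 := by
  rw [E, mp_one, X_mul_mp, map_add, co_C_mul, co_mp, co_mp]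
  simp only [Pi.add_apply, Pi.smul_apply, smul_eq_mul, Pi.single_apply]

lemma E_two (b : ℕ) : E l 2 (b + 1) (b + 1) = l (b + 1) + l (b + 2) - l 1 := by
  have h := E_step l 0 (b + 1) b
  simp only [zero_add] at h
  rw [h, E_one, E_one, E_zero]
  simp

lemma E_three (b : ℕ) :
    E l 3 (b + 1) (b + 2) = l (b + 1) + l (b + 2) + l (b + 3) - l 1 - l 2 := by
  have h := E_step l 1 (b + 1) (b + 1)
  have h2 := E_top l 2 (b + 1)
  have h3 := E_top l 1 (b + 1)
  rw [show 2 + (b + 1) = b + 1 + 2 by omega] at h2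
  rw [show 1 + (b + 1) = b + 1 + 1 by omega] at h3
  norm_num only at h
  rw [h2, h3, E_two] at h
  rw [show b + 2 = b + 1 + 1 from rfl, h]
  ring_nf

lemma E_446 : E l 4 4 6 = l 4 + l 5 + l 6 + l 7 - l 1 - l 2 - l 3 := by
  have h := E_step l 2 4 5
  have h2 := E_top l 3 4
  have h3 := E_top l 2 4
  have h4 := E_three l 3
  norm_num only at h h2 h3 h4
  rw [h, h2, h3, h4]
  ring

lemma E_444 : E l 4 4 4 = l 4 * l 3 + (l 4) * (l 4 + l 5 - l 1) - l 2 * l 4 +
    l 5 * (l 4 + l 5 + l 6 - l 1 - l 2) - l 3 * (l 4 + l 5 - l 1) := by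
  have h := E_step l 2 4 3
  have h1 := E_step l 1 4 2
  have h2 := E_step l 0 4 1
  have h3 := E_three l 3
  have h4 := E_two l 3
  have h5 := E_one l 3 3
  have h6 := E_one l 3 1
  have h7 := E_zero l 4 2
  norm_num at h h1 h2 h3 h4 h5 h6 h7
  rw [h, h1, h2, h3, h4, h5, h6, h7]
  ring

variable {l}

/-- every finite block with the positivity invariant extends to an infinite sequence -/
theorem ext {n : ℕ} (hl : Base l (n + 2)) (hS : Inv l (n + 2) l) :
    ∃ Λ : ℕ → ℝ, (∀ i, 1 ≤ i → 0 < Λ i) ∧ (∀ i, 0 < u Λ i) ∧ (∀ a b c, 0 ≤ E Λ a b c) ∧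
      ∀ i, i ≤ n → Λ i = l i := by
  have step : ∀ p : {p : ℕ × (ℕ → ℝ) // Base p.2 (p.1 + 2) ∧ Inv p.2 (p.1 + 2) p.2},
      ∃ q : {p : ℕ × (ℕ → ℝ) // Base p.2 (p.1 + 2) ∧ Inv p.2 (p.1 + 2) p.2},
      p.1.1 < q.1.1 ∧ ∀ i, i ≤ p.1.1 → q.1.2 i = p.1.2 i := fun p => by
    obtain ⟨L, a1, a2, -⟩ := double p.2.1 p.2.2 one_pos
    obtain ⟨x, h3⟩ := a2.exists
    exact ⟨⟨(p.1.1 + 2 + p.1.1, L x), h3⟩, by simp only; omega, fun i hi => a1 x i (by omega)⟩
  choose f f1 f2 using step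
  obtain ⟨s, s0, s1⟩ : ∃ s : ℕ → {p : ℕ × (ℕ → ℝ) // Base p.2 (p.1 + 2) ∧ Inv p.2 (p.1 + 2) p.2},
      s 0 = ⟨(n, l), hl, hS⟩ ∧ ∀ k, s (k + 1) = f (s k) :=
    ⟨fun k => f^[k] ⟨(n, l), hl, hS⟩, rfl, fun k => Function.iterate_succ_apply' _ _ _⟩
  have s2 : ∀ k, n + k ≤ (s k).1.1 := fun k => by
    induction k with
    | zero => rw [s0]; simp
    | succ k ih => have := f1 (s k); rw [s1]; omega
  have s3 : ∀ i m, i ≤ m → (s i).1.2 i = (s m).1.2 i := fun i m hi => by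
    induction m, hi using Nat.le_induction with
    | base => rfl
    | succ k hk ih => rw [s1, f2 _ i (by have := s2 k; omega), ih]
  have s4 : ∀ m i, i ≤ n → (s m).1.2 i = l i := fun m i hi => by
    induction m with
    | zero => rw [s0]
    | succ k ih => rw [s1, f2 _ i (by have := s2 k; omega), ih]
  refine ⟨fun i => (s i).1.2 i, fun i hi => (s i).2.1.pos i hi (by have := s2 i; omega),
    fun i => ?_, fun a b c => ?_, fun i hi => s4 i i hi⟩
  · rw [u_congr (l' := (s i).1.2) fun j _ hj => s3 j i hj.le]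
    exact (s i).2.1.upos i (by have := s2 i; omega)
  · have := s2 (a + b)
    rw [E_congr (l' := cat ((s (a + b)).1.1 + 2) (s (a + b)).1.2 (s (a + b)).1.2) fun j _ hj => by
      rw [s3 j (a + b) hj.le, cat_lt _ _ (by omega)]]
    exact (s (a + b)).2.2.nonneg (s (a + b)).2.1.pos (by omega) (by omega) c

/-- the symmetric hypergroup of a monic sequence -/
theorem of_monic (h1 : ∀ i, 1 ≤ i → 0 < l i) (h2 : ∀ i, 0 < u l i) (h3 : ∀ a b c, 0 ≤ E l a b c) :
    IsHyp (fun n => u l (n + 1) / u l n) (fun _ => 0) (fun n => l n * u l (n - 1) / u l n) := by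
  have hC : ∀ k, C (u l k) * C (u l k)⁻¹ = (1 : ℝ[X]) := fun k => by
    rw [← map_mul, mul_inv_cancel₀ (h2 k).ne', map_one]
  refine ⟨fun n => div_pos (h2 _) (h2 _), fun _ => le_rfl,
    fun n hn => div_pos (mul_pos (h1 n hn) (h2 _)) (h2 _), by simp, fun n hn => ?_,
    fun n => C (u l n)⁻¹ * mp l n, by simp,
    by simp, fun n hn => ?_, fun m n => ⟨fun k => (u l m)⁻¹ * (u l n)⁻¹ * E l m n k * u l k,
      fun k => ?_, ?_⟩⟩
  · obtain ⟨n, rfl⟩ := Nat.exists_eq_add_of_le' hn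
    have := h2 (n + 1)
    simp only [u_add_two, Nat.add_sub_cancel]
    field_simp
    ring
  · obtain ⟨n, rfl⟩ := Nat.exists_eq_add_of_le' hn
    simp only [Nat.add_sub_cancel, div_eq_mul_inv, map_mul, map_zero]
    rw [mul_left_comm, X_mul_mp]
    linear_combination (-C (u l (n + 1))⁻¹ * mp l (n + 2)) * hC (n + 2) -
      (C (u l (n + 1))⁻¹ * C (l (n + 1)) * mp l n) * hC n
  · have := h2 m
    have := h2 n
    have := h2 k
    have := h3 m n k
    positivity
  · simp only [map_mul]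
    rw [mul_mul_mul_comm, expand_Icc, Finset.mul_sum]
    refine Finset.sum_congr rfl fun k _ => ?_
    linear_combination (-C (u l m)⁻¹ * C (u l n)⁻¹ * C (E l m n k) * mp l k) * hC k

/-- the monic linearization coefficients of a symmetric hypergroup are nonnegative -/
theorem IsHyp.E_nonneg {a c : ℕ → ℝ} (h : IsHyp a (fun _ => 0) c) (m n k : ℕ) :
    0 ≤ E (fun i => a (i - 1) * c i) m n k := by
  obtain ⟨ha, -, -, h0, -, P, p0, p1, pr, hg⟩ := h
  obtain ⟨L, hL⟩ : ∃ L : ℕ → ℝ, L = fun i => a (i - 1) * c i := ⟨_, rfl⟩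
  rw [← hL]
  have a0 : a 0 = 1 := by simpa using h0
  have hU : ∀ n, 0 < ∏ i ∈ range n, a i := fun n => prod_pos fun i _ => ha i
  have key : ∀ n, mp L n = C (∏ i ∈ range n, a i) * P n := fun n => by
    induction n using Nat.twoStepInduction with
    | zero => simp [p0]
    | one => simp [p1, a0]
    | more i h0 h1 =>
      have h2 := pr (i + 1) (by omega)
      simp only [Nat.add_sub_cancel, map_zero, zero_mul, add_zero] at h2
      rw [mp_add_two, h0, h1, hL]
      simp only [Nat.add_sub_cancel, prod_range_succ, map_mul]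
      linear_combination (C (∏ j ∈ range i, a j) * C (a i)) * h2
  have key2 : ∀ n, P n = C (∏ i ∈ range n, a i)⁻¹ * mp L n := fun n => by
    rw [key, ← mul_assoc, ← map_mul, inv_mul_cancel₀ (hU n).ne', map_one, one_mul]
  obtain ⟨g, g0, g1⟩ := hg m n
  rw [E, key, key, mul_mul_mul_comm, ← map_mul, co_C_mul, g1, map_sum]
  simp only [Pi.smul_apply, smul_eq_mul, Finset.sum_apply]
  refine mul_nonneg (mul_pos (hU m) (hU n)).le (sum_nonneg fun j _ => ?_)
  rw [co_C_mul, key2, co_C_mul, co_mp]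
  simp only [Pi.smul_apply, smul_eq_mul, Pi.single_apply]
  have := g0 j
  have := hU j
  split_ifs <;> positivity

end Pool.Agent.Work.MP_5c86b6_an.Jt
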