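import Pool.Agent.Work.MP_5c86b6_an.Jt.Basic

/-!
Joint range of the first two Haar weights of symmetric polynomial hypergroups.
-/

open Polynomial Finset Filter Topology

namespace Pool.Agent.Work.MP_5c86b6_an.Jt

open Pool.Agent.Work.MP_5c86b6_an.Lac

lemma boot {c : ℕ → ℝ} (h1 : ∀ n, 1 ≤ n → c n < 1)
    (h2 : ∀ b, 1 ≤ b → c 1 ≤ (1 - c b) * c (b + 1) + (1 - c (b + 1)) * c (b + 2))
    {m : ℝ} {k : ℕ} (hk : 1 ≤ k) (hm : 1 / 2 ≤ m) (hd : 2 * m * (1 - m) < c 1)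
    (k0 : m ≤ c k) (k1 : m ≤ c (k + 1)) : False := by
  obtain ⟨d, hdd⟩ : ∃ d, d = c 1 - 2 * m * (1 - m) := ⟨_, rfl⟩
  have d0 : 0 < d := by linarith
  have step : ∀ μ, m ≤ μ → ∀ i, 1 ≤ i → μ ≤ c i → μ ≤ c (i + 1) → μ + d ≤ c (i + 2) := by
    intro μ hμ i hi x y
    by_contra hz
    have hz := not_le.1 hz
    have e := h2 i hi
    have y1 := h1 (i + 1) (by omega)
    have e1 : (1 - c i) * c (i + 1) ≤ (1 - μ) * c (i + 1) :=
      mul_le_mul_of_nonneg_right (by linarith) (by linarith)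
    have e2 : (1 - c (i + 1)) * c (i + 2) < (1 - c (i + 1)) * (μ + d) :=
      mul_lt_mul_of_pos_left hz (by linarith)
    have e3 : 0 ≤ (c (i + 1) - μ) * (2 * μ - 1) := mul_nonneg (by linarith) (by linarith)
    have e4 : 0 ≤ (μ - m) * (μ + m - 1) := mul_nonneg (by linarith) (by linarith)
    have e5 : 0 ≤ c (i + 1) * d := mul_nonneg (by linarith) d0.le
    nlinarith
  have it : ∀ j : ℕ, m + j * d ≤ c (k + 2 * j) ∧ m + j * d ≤ c (k + 2 * j + 1) := by
    intro j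
    induction j with
    | zero => simpa using ⟨k0, k1⟩
    | succ j ih =>
      have hj : m ≤ m + j * d := by have : 0 ≤ (j : ℝ) * d := by positivity
                                    linarith
      have a1 := step _ hj (k + 2 * j) (by omega) ih.1 ih.2
      have a2 := step _ hj (k + 2 * j + 1) (by omega) ih.2 (by
        rw [show k + 2 * j + 1 + 1 = k + 2 * j + 2 from rfl]; linarith)
      rw [show k + 2 * (j + 1) = k + 2 * j + 2 by ring, show k + 2 * j + 2 + 1 = k + 2 * j + 1 + 2 by ring]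
      push_cast
      constructor <;> linarith
  obtain ⟨j, hj⟩ := exists_nat_gt (1 / d)
  rw [div_lt_iff₀ d0] at hj
  have := (it j).2
  have := h1 (k + 2 * j + 1) (by omega)
  linarith

/-- what nonnegativity gives for the recurrence coefficients -/
lemma IsHyp.facts {a c : ℕ → ℝ} (h : IsHyp a (fun _ => 0) c) :
    a 0 = 1 ∧ a 1 = 1 - c 1 ∧ (∀ n, 1 ≤ n → 0 < c n) ∧ (∀ n, 1 ≤ n → c n < 1) ∧
    (∀ b, 1 ≤ b → c 1 ≤ (1 - c b) * c (b + 1) + (1 - c (b + 1)) * c (b + 2)) ∧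
    c 1 + (1 - c 1) * c 2 ≤ (1 - c 2) * c 3 + (1 - c 3) * c 4 + (1 - c 4) * c 5 := by
  have hE := h.E_nonneg
  obtain ⟨ha, -, hc, h0, hs, -⟩ := h
  have a0 : a 0 = 1 := by simpa using h0
  have a1 : ∀ n, 1 ≤ n → a n = 1 - c n := fun n hn => by have := hs n hn; linarith
  refine ⟨a0, a1 1 le_rfl, hc, fun n hn => by have := ha n; rw [a1 n hn] at this; linarith,
    fun b hb => ?_, ?_⟩
  · have := hE 2 (b + 1) (b + 1)
    rw [E_two] at this
    simp only [Nat.add_sub_cancel, show b + 2 - 1 = b + 1 from rfl, Nat.sub_self] at this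
    rw [a0, a1 b hb, a1 (b + 1) (by omega)] at this
    linarith
  · have := hE 3 (2 + 1) (2 + 2)
    rw [E_three] at this
    norm_num only at this
    rw [a0, a1 1 le_rfl, a1 2 (by omega), a1 3 (by omega), a1 4 (by omega)] at this
    linarith

lemma IsHyp.lt_of_half_lt {a c : ℕ → ℝ} (h : IsHyp a (fun _ => 0) c) (hc : 1 / 2 < c 1) :
    c 2 < 1 - c 1 := by
  obtain ⟨-, -, p, q, r, -⟩ := h.facts
  by_contra h2
  have h2 := not_lt.1 h2
  have r1 := r 1 le_rfl
  have r2 := r 2 (by omega)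
  norm_num only at r1 r2
  have p2 := p 2 (by omega)
  have q1 := q 1 le_rfl
  have q2 := q 2 (by omega)
  have q3 := q 3 (by omega)
  have c3 : c 1 ≤ c 3 := by
    by_contra h3
    have h3 := not_le.1 h3
    have := mul_lt_mul_of_pos_left h3 (show 0 < 1 - c 2 by linarith)
    nlinarith
  have c4 : c 1 ≤ c 4 := by
    by_contra h4
    have h4 := not_le.1 h4
    have := mul_lt_mul_of_pos_left h4 (show 0 < 1 - c 3 by linarith)
    have : (1 - c 2) * c 3 ≤ c 1 * c 3 := mul_le_mul_of_nonneg_right (by linarith) (by linarith)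
    nlinarith
  exact boot q r (k := 3) (m := c 1) (by omega) hc.le (by nlinarith) c3 c4

lemma IsHyp.le_of_eq_half {a c : ℕ → ℝ} (h : IsHyp a (fun _ => 0) c) (hc : c 1 = 1 / 2) :
    c 2 ≤ 1 / 2 := by
  obtain ⟨-, -, p, q, r, r3⟩ := h.facts
  by_contra h2
  have h2 := not_le.1 h2
  have two : ∀ k, 1 ≤ k → 1 / 2 < c k → c (k + 1) ≤ 1 / 2 := fun k hk x => by
    by_contra y
    have y := not_le.1 y
    have hm : 1 / 2 < min (c k) (c (k + 1)) := lt_min x y
    exact boot q r hk hm.le (by rw [hc]; nlinarith) (min_le_left _ _) (min_le_right _ _)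
  have r1 := r 1 le_rfl
  have r2 := r 2 (by omega)
  norm_num only at r1 r2
  have q2 := q 2 (by omega)
  have q4 := q 4 (by omega)
  have c3 : c 3 = 1 / 2 := by
    refine le_antisymm (two 2 (by omega) h2) ?_
    by_contra h3
    have h3 := not_le.1 h3
    have := mul_lt_mul_of_pos_left h3 (show 0 < 1 - c 2 by linarith)
    rw [hc] at r1
    nlinarith
  rw [hc, c3] at r2 r3
  have c5 : c 5 ≤ 1 / 2 := two 4 (by omega) (by linarith)
  have := mul_le_mul_of_nonneg_left c5 (show 0 ≤ 1 - c 4 by linarith)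
  linarith

/-- four point block -/
def b4 (x y : ℝ) (i : ℕ) : ℝ :=
  if i = 1 then x else if i = 2 then (1 - x) * y else if i = 3 then 1 - y else 0

lemma b4_good {x y : ℝ} (x0 : 0 < x) (y0 : 0 < y) (h1 : x + y < 1) (h2 : (1 - x) * y < 1 - y) :
    Base (b4 x y) (2 + 2) ∧ Inv (b4 x y) (2 + 2) (b4 x y) := by
  have u2 : u (b4 x y) 2 = 1 - x := by rw [u_add_two]; simp [b4]
  have u3 : u (b4 x y) 3 = (1 - x) * (1 - y) := by rw [u_add_two, u2]; simp [b4]; ring
  have x1 : 0 < 1 - x := by linarith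
  have y1 : 0 < 1 - y := by linarith
  refine ⟨⟨by simp [b4], by omega, fun i a b => ?_, fun i a => ?_, ?_⟩, ?_⟩
  · have : i = 1 ∨ i = 2 ∨ i = 3 := by omega
    rcases this with rfl | rfl | rfl <;> simp [b4] <;> first | positivity | linarith
  · have : i = 0 ∨ i = 1 ∨ i = 2 ∨ i = 3 := by omega
    rcases this with rfl | rfl | rfl | rfl
    · simp
    · simp
    · rw [u2]; exact x1
    · rw [u3]; positivity
  · rw [u_add_two, u2, u3]; simp [b4]; ring
  · intro a b c g1 g2 g3 g4 g5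
    rcases eq_or_lt_of_le g4 with rfl | g6
    · rw [E_top]; exact one_pos
    have : (a = 2 ∧ b = 2 ∧ c = 2) ∨ (a = 2 ∧ b = 3 ∧ c = 3) ∨ (a = 3 ∧ b = 3 ∧ c = 4) := by omega
    have xy := mul_pos x1 y0
    rcases this with ⟨rfl, rfl, rfl⟩ | ⟨rfl, rfl, rfl⟩ | ⟨rfl, rfl, rfl⟩
    · rw [E_two _ 1]; simp [cat, b4]; linarith
    · rw [E_two _ 2]; simp [cat, b4]; linarith
    · rw [E_three _ 2]; simp [cat, b4]; linarith

/-- five point block -/
def b5 (x y z : ℝ) (i : ℕ) : ℝ :=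
  if i = 1 then x else if i = 2 then (1 - x) * y else if i = 3 then (1 - y) * z else
    if i = 4 then 1 - z else 0

lemma b5_good {x y z : ℝ} (x0 : 0 < x) (x1 : x < 1) (y1 : y < 1) (h1 : x ≤ (1 - x) * y)
    (z0 : 0 < z) (z1 : z < 1 / 2) (h2 : z < (1 - x) * (1 - y)) :
    Base (b5 x y z) (3 + 2) ∧ Inv (b5 x y z) (3 + 2) (b5 x y z) := by
  have u2 : u (b5 x y z) 2 = 1 - x := by rw [u_add_two]; simp [b5]
  have u3 : u (b5 x y z) 3 = (1 - x) * (1 - y) := by rw [u_add_two, u2]; simp [b5]; ring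
  have u4 : u (b5 x y z) 4 = (1 - x) * (1 - y) * (1 - z) := by
    rw [u_add_two, u2, u3]; simp [b5]; ring
  have x1 : 0 < 1 - x := by linarith
  have y1 : 0 < 1 - y := by linarith
  have z2 : 0 < 1 - z := by linarith
  have y0 : 0 < y := by
    by_contra h
    have := mul_nonneg x1.le (neg_nonneg.2 (not_lt.1 h))
    linarith
  refine ⟨⟨by simp [b5], by omega, fun i a b => ?_, fun i a => ?_, ?_⟩, ?_⟩
  · have : i = 1 ∨ i = 2 ∨ i = 3 ∨ i = 4 := by omega
    rcases this with rfl | rfl | rfl | rfl <;> simp [b5] <;> first | positivity | linarith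
  · have : i = 0 ∨ i = 1 ∨ i = 2 ∨ i = 3 ∨ i = 4 := by omega
    rcases this with rfl | rfl | rfl | rfl | rfl
    · simp
    · simp
    · rw [u2]; exact x1
    · rw [u3]; positivity
    · rw [u4]; positivity
  · rw [u_add_two, u3, u4]; simp [b5]; ring
  · intro a b c g1 g2 g3 g4 g5
    rcases eq_or_lt_of_le g4 with rfl | g6
    · rw [E_top]; exact one_pos
    have : (a = 2 ∧ b = 2 ∧ c = 2) ∨ (a = 2 ∧ b = 3 ∧ c = 3) ∨ (a = 2 ∧ b = 4 ∧ c = 4) ∨
      (a = 3 ∧ b = 3 ∧ c = 4) ∨ (a = 3 ∧ b = 4 ∧ c = 5) ∨ (a = 4 ∧ b = 4 ∧ c = 6) ∨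
      (a = 4 ∧ b = 4 ∧ c = 4) := by omega
    have yz := mul_pos y1 z0
    have yz' := mul_pos y0 z0
    have xy := mul_pos x1 y0
    rcases this with ⟨rfl, rfl, rfl⟩ | ⟨rfl, rfl, rfl⟩ | ⟨rfl, rfl, rfl⟩ | ⟨rfl, rfl, rfl⟩ |
      ⟨rfl, rfl, rfl⟩ | ⟨rfl, rfl, rfl⟩ | ⟨rfl, rfl, rfl⟩
    · rw [E_two _ 1]; simp [cat, b5]; linarith
    · rw [E_two _ 2]; simp [cat, b5]; nlinarith
    · rw [E_two _ 3]; simp [cat, b5]; nlinarith
    · rw [E_three _ 2]; simp [cat, b5]; nlinarith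
    · rw [E_three _ 3]; simp [cat, b5]; nlinarith
    · rw [E_446]; simp [cat, b5]; nlinarith
    · rw [E_444]
      simp only [cat, b5]
      norm_num
      have := mul_pos z2 (show 0 < (1 - x) * (1 - y) - z by linarith)
      have := mul_pos x0 yz
      nlinarith

lemma realise {l : ℕ → ℝ} {n : ℕ} (hn : 2 ≤ n) (h : Base l (n + 2) ∧ Inv l (n + 2) l) {s t : ℝ}
    (hs : 1 < s) (ht : 0 < t) (l1 : l 1 = 1 / s) (l2 : l 2 = (1 - 1 / s) * ((s - 1) / t)) :
    ∃ a c : ℕ → ℝ, IsHyp a (fun _ => 0) c ∧ a 0 / c 1 = s ∧ a 0 * a 1 / (c 1 * c 2) = t := by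
  obtain ⟨Λ, h1, h2, h3, h4⟩ := ext h.1 h.2
  have s0 : s - 1 ≠ 0 := by linarith
  have s1 : s ≠ 0 := by linarith
  have u2 : u Λ 2 = (s - 1) / s := by
    rw [u_add_two, h4 _ (by omega), l1]; simp; field_simp
  refine ⟨_, _, of_monic h1 h2 h3, ?_, ?_⟩
  · simp [h4 1 (by omega), l1]
  · simp only [zero_add, u_one, u_zero, Nat.sub_self, show 1 + 1 = 2 from rfl,
      show 2 - 1 = 1 from rfl, u2, h4 1 (by omega), h4 2 hn, l1, l2]
    field_simp

lemma cheb : IsHyp (fun n => if n = 0 then 1 else 1 / 2) (fun _ => 0) (fun _ => 1 / 2) := by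
  have h2 : (C (1 / 2) : ℝ[X]) * 2 = 1 := by
    rw [show (2 : ℝ[X]) = C 2 from rfl, ← map_mul]; norm_num
  refine ⟨fun n => by dsimp only; split_ifs <;> norm_num, fun _ => le_rfl, fun _ _ => by norm_num,
    by simp, fun n hn => by dsimp only; rw [if_neg (by omega)]; norm_num,
    fun n => Chebyshev.T ℝ n, by simp, by simp,
    fun n hn => ?_, fun m n => ⟨fun k => (if k = m + n then 1 / 2 else 0) +
      (if k = Nat.dist m n then 1 / 2 else 0), fun k => by dsimp only; split_ifs <;> norm_num, ?_⟩⟩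
  · have := Chebyshev.T_add_one ℝ (n : ℤ)
    dsimp only
    rw [if_neg (by omega), Nat.cast_sub hn]
    simp only [map_zero]
    push_cast
    linear_combination (-C (1 / 2)) * this - (X * Chebyshev.T ℝ n) * h2
  · have e := Chebyshev.T_mul_T ℝ (m : ℤ) n
    have e2 : Chebyshev.T ℝ ((Nat.dist m n : ℕ) : ℤ) = Chebyshev.T ℝ ((m : ℤ) - n) := by
      rw [← Chebyshev.T_natAbs ℝ ((m : ℤ) - n)]
      congr 2
      rw [Nat.dist]
      omega
    have hd : Nat.dist m n ≤ m + n := by rw [Nat.dist]; omega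
    simp only [map_add, add_mul, sum_add_distrib, apply_ite C, map_zero, ite_mul, zero_mul,
      sum_ite_eq', mem_Icc, hd, le_refl, and_self, if_true]
    rw [e2]
    push_cast
    linear_combination (C (1 / 2)) * e - (Chebyshev.T ℝ m * Chebyshev.T ℝ n) * h2

end Pool.Agent.Work.MP_5c86b6_an.Jt
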