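import Pool.Agent.Work.MP_5c86b6_an.Jt.Main

/-!
The case of first Haar weight above two: the six point block and the matching obstruction.
-/

open Polynomial Finset Filter Topology

namespace Pool.Agent.Work.MP_5c86b6_an.Jt

open Pool.Agent.Work.MP_5c86b6_an.Lac

lemma E_457 (l : ℕ → ℝ) : E l 4 5 7 = l 5 + l 6 + l 7 + l 8 - l 1 - l 2 - l 3 := by
  have h := E_step l 2 5 6
  have h2 := E_top l 3 5
  have h3 := E_top l 2 5
  have h4 := E_three l 4
  norm_num only at h h2 h3 h4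
  rw [h, h2, h3, h4]
  ring

lemma E_558 (l : ℕ → ℝ) : E l 5 5 8 = l 5 + l 6 + l 7 + l 8 + l 9 - l 1 - l 2 - l 3 - l 4 := by
  have h := E_step l 3 5 7
  have h2 := E_top l 4 5
  have h3 := E_top l 3 5
  norm_num only at h h2 h3
  rw [h, h2, h3, E_457]
  ring

lemma E_455 (l : ℕ → ℝ) : E l 4 5 5 = l 5 * l 4 + l 5 * (l 5 + l 6 - l 1) - l 2 * l 5 +
    l 6 * (l 5 + l 6 + l 7 - l 1 - l 2) - l 3 * (l 5 + l 6 - l 1) := by
  have h := E_step l 2 5 4
  have h1 := E_step l 1 5 3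
  have h2 := E_step l 0 5 2
  have h3 := E_three l 4
  have h4 := E_two l 4
  have h5 := E_one l 4 4
  have h6 := E_one l 4 2
  have h7 := E_zero l 5 3
  norm_num at h h1 h2 h3 h4 h5 h6 h7
  rw [h, h1, h2, h3, h4, h5, h6, h7]
  ring

lemma E_556 (l : ℕ → ℝ) : E l 5 5 6 = E l 4 5 5 + l 7 * (l 5 + l 6 + l 7 + l 8 - l 1 - l 2 - l 3) -
    l 4 * (l 5 + l 6 + l 7 - l 1 - l 2) := by
  have h := E_step l 3 5 5
  have h3 := E_three l 4
  norm_num only at h h3
  rw [h, h3, E_457]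

lemma cases6 (a : ℕ) (ha : a < 6) (b : ℕ) (hb : b < 6) (c : ℕ) (hc : c < 11) (h1 : a ≤ b)
    (h2 : b ≤ c) (h3 : c < a + b) (h4 : (a + b + c) % 2 = 0) :
    (a, b, c) ∈ [(2, 2, 2), (2, 3, 3), (2, 4, 4), (2, 5, 5), (3, 3, 4), (3, 4, 5),
      (3, 5, 6), (4, 4, 6), (4, 5, 7), (5, 5, 8), (4, 4, 4), (4, 5, 5), (5, 5, 6)] := by
  interval_cases b <;> interval_cases a <;> interval_cases c <;> first | omega | simp

/-- six point block -/
def b6 (x y : ℝ) (i : ℕ) : ℝ :=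
  if i = 1 then x else if i = 2 then (1 - x) * y else if i = 3 then (1 - y) * (1 - y) else
    if i = 4 then y * (1 - (1 - x) * y - (1 - y) * (1 - y)) else
      if i = 5 then (1 - x) * y + (1 - y) * (1 - y) else 0

lemma b6_good {x y : ℝ} (x1 : x < 1 / 2) (h0 : 1 - y ≤ x) (h1 : (1 - x) * y < x)
    (h2 : x < (1 - x) * y + (1 - y) * (1 - y)) (y1 : y < 1) :
    Base (b6 x y) (4 + 2) ∧ Inv (b6 x y) (4 + 2) (b6 x y) := by
  obtain ⟨z, hz⟩ : ∃ z, z = 1 - (1 - x) * y - (1 - y) * (1 - y) := ⟨_, rfl⟩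
  have x2 : 0 < 1 - x := by linarith
  have y2 : 0 < 1 - y := by linarith
  have x0 : 0 < x := by linarith
  have y0 : 0 < y := by linarith
  have yy : (1 - y) * (1 - y) < 1 - y := by nlinarith
  have z0 : 0 < z := by linarith
  have e0 : 0 < 1 - x - z := by linarith
  have z1 : 0 < 1 - z := by linarith
  have q1 : b6 x y 1 = x := by simp [b6]
  have q2 : b6 x y 2 = (1 - x) * y := by simp [b6]
  have q3 : b6 x y 3 = (1 - y) * (1 - y) := by simp [b6]
  have q4 : b6 x y 4 = y * z := by simp [b6, hz]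
  have q5 : b6 x y 5 = 1 - z := by simp only [b6, hz]; norm_num; ring
  have q0 : b6 x y 0 = 0 := by simp [b6]
  have u2 : u (b6 x y) 2 = 1 - x := by rw [u_add_two, q1]; simp
  have u3 : u (b6 x y) 3 = (1 - x) * (1 - y) := by rw [u_add_two, u2, q2]; simp; ring
  have u4 : u (b6 x y) 4 = (1 - x) * (1 - y) * y := by rw [u_add_two, u2, u3, q3]; ring
  have u5 : u (b6 x y) 5 = (1 - x) * (1 - y) * y * (1 - z) := by
    rw [u_add_two, u3, u4, q4]; ring
  refine ⟨⟨q0, by omega, fun i a b => ?_, fun i a => ?_, ?_⟩, ?_⟩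
  · have : i = 1 ∨ i = 2 ∨ i = 3 ∨ i = 4 ∨ i = 5 := by omega
    rcases this with rfl | rfl | rfl | rfl | rfl
    · rw [q1]; exact x0
    · rw [q2]; positivity
    · rw [q3]; positivity
    · rw [q4]; positivity
    · rw [q5]; exact z1
  · have : i = 0 ∨ i = 1 ∨ i = 2 ∨ i = 3 ∨ i = 4 ∨ i = 5 := by omega
    rcases this with rfl | rfl | rfl | rfl | rfl | rfl
    · simp
    · simp
    · rw [u2]; exact x2
    · rw [u3]; positivity
    · rw [u4]; positivity
    · rw [u5]; positivity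
  · rw [u_add_two, u4, u5, q5]; ring
  · intro a b c g1 g2 g3 g4 g5
    rcases eq_or_lt_of_le g4 with rfl | g6
    · rw [E_top]; exact one_pos
    have := cases6 a (by omega) b g2 c (by omega) g1 g3 g6 g5
    simp only [List.mem_cons, Prod.mk.injEq, List.not_mem_nil, or_false] at this
    have k1 := mul_pos y2 e0
    have k2 := mul_pos y0 z0
    have k3 := mul_pos x2 y0
    have k4 := mul_pos y0 e0
    have k5 := mul_pos y2 y2
    rcases this with ⟨rfl, rfl, rfl⟩ | ⟨rfl, rfl, rfl⟩ | ⟨rfl, rfl, rfl⟩ | ⟨rfl, rfl, rfl⟩ |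
      ⟨rfl, rfl, rfl⟩ | ⟨rfl, rfl, rfl⟩ | ⟨rfl, rfl, rfl⟩ | ⟨rfl, rfl, rfl⟩ | ⟨rfl, rfl, rfl⟩ |
      ⟨rfl, rfl, rfl⟩ | ⟨rfl, rfl, rfl⟩ | ⟨rfl, rfl, rfl⟩ | ⟨rfl, rfl, rfl⟩
    · rw [E_two _ 1]; norm_num [cat, q0, q1, q2, q3, q4, q5]; linarith
    · rw [E_two _ 2]; norm_num [cat, q0, q1, q2, q3, q4, q5]; linarith
    · rw [E_two _ 3]; norm_num [cat, q0, q1, q2, q3, q4, q5]; linarith
    · rw [E_two _ 4]; norm_num [cat, q0, q1, q2, q3, q4, q5]; linarith
    · rw [E_three _ 2]; norm_num [cat, q0, q1, q2, q3, q4, q5]; linarith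
    · rw [E_three _ 3]; norm_num [cat, q0, q1, q2, q3, q4, q5]; linarith
    · rw [E_three _ 4]; norm_num [cat, q0, q1, q2, q3, q4, q5]; linarith
    · rw [E_446]; norm_num [cat, q0, q1, q2, q3, q4, q5]; linarith
    · rw [E_457]; norm_num [cat, q0, q1, q2, q3, q4, q5]; linarith
    · rw [E_558]; norm_num [cat, q0, q1, q2, q3, q4, q5]; linarith
    · rw [E_444]; norm_num [cat, q0, q1, q2, q3, q4, q5]
      have := mul_pos k1 (show 0 < y * z + (1 - z) - (1 - y) by linarith)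
      linarith
    · rw [E_455]; norm_num [cat, q0, q1, q2, q3, q4, q5]
      have := mul_pos k1 (show 0 < (1 - z) - (1 - y) by linarith)
      linarith
    · rw [E_556, E_455]; norm_num [cat, q0, q1, q2, q3, q4, q5]
      have := mul_pos k3 k2
      have e : (1 - z) * (1 - z - (1 - x) * y - (1 - y) * (1 - y)) = 0 := by rw [hz]; ring
      linarith

lemma IsHyp.three {a c : ℕ → ℝ} (h : IsHyp a (fun _ => 0) c) (b : ℕ) (hb : 1 ≤ b) :
    c 1 + (1 - c 1) * c 2 ≤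
      (1 - c b) * c (b + 1) + (1 - c (b + 1)) * c (b + 2) + (1 - c (b + 2)) * c (b + 3) := by
  have hE := h.E_nonneg 3 (b + 1) (b + 2)
  obtain ⟨ha, -, hc, h0, hs, -⟩ := h
  have a0 : a 0 = 1 := by simpa using h0
  have a1 : ∀ n, 1 ≤ n → a n = 1 - c n := fun n hn => by have := hs n hn; linarith
  rw [E_three] at hE
  simp only [Nat.add_sub_cancel, show b + 2 - 1 = b + 1 from rfl, show b + 3 - 1 = b + 2 from rfl,
    Nat.sub_self, show 2 - 1 = 1 from rfl] at hE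
  rw [a0, a1 1 le_rfl, a1 b hb, a1 (b + 1) (by omega), a1 (b + 2) (by omega)] at hE
  linarith

lemma tri {p q r s p0 r0 ρ : ℝ} (h : 1 - ρ ≤ (1 - p) * q + (1 - q) * r + (1 - r) * s)
    (hp : p0 ≤ p) (hr : r0 ≤ r) (r1 : r < 1) (q0 : 0 ≤ q) (h0 : ρ ≤ p0 * q) :
    p0 * q - ρ ≤ (1 - r0) * (q + s - 1) := by
  have e1 := mul_le_mul_of_nonneg_right hp q0
  have e2 : p0 * q - ρ ≤ (1 - r) * (q + s - 1) := by linarith
  have e3 : 0 ≤ q + s - 1 := by
    by_contra h4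
    have := mul_pos (show 0 < 1 - r by linarith) (neg_pos.2 (not_le.1 h4))
    linarith
  have := mul_le_mul_of_nonneg_right (show 1 - r ≤ 1 - r0 by linarith) e3
  linarith

lemma boot3 {c : ℕ → ℝ} {ρ : ℝ} (h1 : ∀ n, 1 ≤ n → c n < 1)
    (h2 : ∀ b, 1 ≤ b → 1 - ρ ≤
      (1 - c b) * c (b + 1) + (1 - c (b + 1)) * c (b + 2) + (1 - c (b + 2)) * c (b + 3))
    (hρ : ρ < 1 / 4) {k : ℕ} (hk : 1 ≤ k) (k0 : 1 / 2 ≤ c k) (k1 : 1 / 2 ≤ c (k + 1))
    (k2 : 1 / 2 ≤ c (k + 2)) : False := by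
  obtain ⟨d, hdd⟩ : ∃ d, d = 1 / 4 - ρ := ⟨_, rfl⟩
  have d0 : 0 < d := by linarith
  have step : ∀ μ, 1 / 2 ≤ μ → ∀ i, 1 ≤ i → μ ≤ c i → μ ≤ c (i + 1) → μ ≤ c (i + 2) →
      μ + d ≤ c (i + 3) := by
    intro μ hμ i hi x y z
    have z1 := h1 (i + 2) (by omega)
    have e := tri (h2 i hi) x z z1 (by linarith) (by nlinarith)
    by_contra hz
    have hz := not_le.1 hz
    have e2 := mul_lt_mul_of_pos_left hz (show 0 < 1 - μ by linarith)
    have e3 : 0 ≤ (c (i + 1) - μ) * (2 * μ - 1) := mul_nonneg (by linarith) (by linarith)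
    have e4 : 0 ≤ μ * d := mul_nonneg (by linarith) d0.le
    nlinarith [sq_nonneg (μ - 1 / 2)]
  have it : ∀ j : ℕ, 1 / 2 + j * d ≤ c (k + 3 * j) ∧ 1 / 2 + j * d ≤ c (k + 3 * j + 1) ∧
      1 / 2 + j * d ≤ c (k + 3 * j + 2) := by
    intro j
    induction j with
    | zero => simpa using ⟨by simpa using k0, by simpa using k1, by simpa using k2⟩
    | succ j ih =>
      have hj : 1 / 2 ≤ 1 / 2 + j * d := by
        have : 0 ≤ (j : ℝ) * d := by positivity
        linarith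
      have a1 := step _ hj (k + 3 * j) (by omega) ih.1 ih.2.1 ih.2.2
      have a2 := step _ hj (k + 3 * j + 1) (by omega) ih.2.1 ih.2.2 (by
        rw [show k + 3 * j + 1 + 2 = k + 3 * j + 3 from rfl]; linarith)
      have a3 := step _ hj (k + 3 * j + 2) (by omega) ih.2.2 (by
        rw [show k + 3 * j + 2 + 1 = k + 3 * j + 3 from rfl]; linarith) (by
        rw [show k + 3 * j + 2 + 2 = k + 3 * j + 1 + 3 from rfl]; linarith)
      rw [show k + 3 * (j + 1) = k + 3 * j + 3 by ring,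
        show k + 3 * j + 3 + 1 = k + 3 * j + 1 + 3 by ring,
        show k + 3 * j + 3 + 2 = k + 3 * j + 2 + 3 by ring]
      push_cast
      refine ⟨?_, ?_, ?_⟩ <;> linarith
  obtain ⟨j, hj⟩ := exists_nat_gt (1 / d)
  rw [div_lt_iff₀ d0] at hj
  have := (it j).2.1
  have := h1 (k + 3 * j + 1) (by omega)
  linarith

lemma IsHyp.curve {a c : ℕ → ℝ} (h : IsHyp a (fun _ => 0) c) (hc : c 1 < 1 / 2) :
    c 1 * (1 + c 2) < 1 - c 2 + c 2 ^ 2 := by
  have B := h.three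
  obtain ⟨-, -, p, q, A, -⟩ := h.facts
  by_contra hD
  have hD := not_lt.1 hD
  have B' : ∀ b, 1 ≤ b → 1 - (1 - c 1) * (1 - c 2) ≤
      (1 - c b) * c (b + 1) + (1 - c (b + 1)) * c (b + 2) + (1 - c (b + 2)) * c (b + 3) :=
    fun b hb => by have := B b hb; linarith
  have A1 := A 1 le_rfl
  have A2 := A 2 (by omega)
  have B2 := B' 2 (by omega)
  have B3 := B' 3 (by omega)
  have B4 := B' 4 (by omega)
  have B5 := B' 5 (by omega)
  have B6 := B' 6 (by omega)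
  norm_num only at A1 A2 B2 B3 B4 B5 B6
  have p2 := p 2 (by omega)
  have x1 : 0 < 1 - c 2 := by linarith [q 2 (by omega)]
  have y1 : 0 < 1 - c 3 := by linarith [q 3 (by omega)]
  have x2 : 1 / 2 < c 2 := by
    by_contra h5
    have := mul_nonneg x1.le (show 0 ≤ 1 / 2 - c 2 by linarith [not_lt.1 h5])
    nlinarith
  have cx : 1 - c 2 ≤ c 1 := by
    by_contra h5
    have := mul_lt_mul_of_pos_right (not_le.1 h5) (show 0 < 1 + c 2 by linarith)
    nlinarith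
  have c0 : 0 < c 1 := by linarith
  have c3 : 1 - c 2 ≤ c 3 := le_of_mul_le_mul_left (by nlinarith) x1
  have c4 : 1 - c 1 ≤ c 4 := by
    refine le_of_mul_le_mul_left ?_ y1
    have := mul_nonneg (sub_nonneg.2 c3) (show 0 ≤ c 2 - c 1 by linarith)
    nlinarith
  have c5 : c 2 ≤ c 5 := by
    have e := tri B2 le_rfl c4 (q 4 (by omega)) (by linarith) (by nlinarith)
    refine le_of_mul_le_mul_left ?_ c0
    have := mul_nonneg (sub_nonneg.2 c3) (show 0 ≤ c 2 - c 1 by linarith)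
    have := mul_nonneg x1.le (sub_nonneg.2 cx)
    nlinarith
  have c6 : c 1 ≤ c 6 := by
    have e := tri B3 c3 c5 (q 5 (by omega)) (by linarith) (by nlinarith)
    refine le_of_mul_le_mul_left ?_ x1
    nlinarith
  have c7 : c 2 ≤ c 7 := by
    have e := tri B4 c4 c6 (q 6 (by omega)) (by linarith) (by nlinarith)
    refine le_of_mul_le_mul_left ?_ (show 0 < 1 - c 1 by linarith)
    nlinarith
  have c8 : c 2 ≤ c 8 := by
    have e := tri B5 c5 c7 (q 7 (by omega)) (by linarith) (by nlinarith)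
    refine le_of_mul_le_mul_left ?_ x1
    have := mul_nonneg (sub_nonneg.2 c6) (show 0 ≤ 2 * c 2 - 1 by linarith)
    have := mul_nonneg p2.le (sub_nonneg.2 cx)
    nlinarith
  have c9 : 1 / 2 ≤ c 9 := by
    have e := tri B6 c6 c8 (q 8 (by omega)) (by linarith) (by nlinarith)
    refine le_of_mul_le_mul_left ?_ x1
    have e1 := mul_nonneg (sub_nonneg.2 c7) (sub_nonneg.2 cx)
    have e2 : (1 - c 2) / 2 ≤ c 1 - c 2 + c 2 ^ 2 := by
      refine le_of_mul_le_mul_left ?_ (show 0 < 1 + c 2 by linarith)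
      have := mul_nonneg (show 0 ≤ c 2 - 1 / 2 by linarith)
        (show 0 ≤ c 2 ^ 2 + 2 * c 2 - 1 by nlinarith)
      nlinarith
    nlinarith
  exact boot3 q B' (k := 7) (by nlinarith) (by omega) (by linarith) (by linarith) c9

end Pool.Agent.Work.MP_5c86b6_an.Jt
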